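import Pool.Agent.Q177.AC.Stm

set_option autoImplicit false

/-!
Project AC, job HYC: the distance formula of the upper half plane.
-/

namespace Pool.Agent.Q222.AC

open Filter Topology
open Pool.Agent.Q177.AC

theorem hyc_core {x h x' h' : ℝ} (hh : h' ≤ h) : |dist (hp x h) (hp x' h') - dT ‖x - x'‖ h h'| ≤ 10 := by
  set y := Real.exp h with hy
  set y' := Real.exp h' with hy'
  have py : 0 < y := Real.exp_pos _
  have py' : 0 < y' := Real.exp_pos _
  have hyy : y' ≤ y := Real.exp_le_exp.2 hh
  set n := ‖x - x'‖ with hn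
  have n0 : 0 ≤ n := norm_nonneg _
  set m := max n (max y y') with hm
  have hm1 : n ≤ m := le_max_left _ _
  have hm2 : y ≤ m := (le_max_left _ _).trans (le_max_right _ _)
  have hm3 : m ≤ max n y := by
    rw [hm, max_eq_left hyy]
  have pm : 0 < m := py.trans_le hm2
  set D := dist ((hp x h : UpperHalfPlane) : ℂ) (hp x' h') with hD
  have D0 : 0 ≤ D := dist_nonneg
  have hD2 : D ^ 2 = n ^ 2 + (y - y') ^ 2 := by
    rw [hD, Complex.dist_eq, ← Complex.normSq_eq_norm_sq, Complex.normSq_apply, hn, Real.norm_eq_abs, sq_abs]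
    change (x - x') * (x - x') + (y - y') * (y - y') = _
    ring
  set q := √(y * y') with hq
  have hq2 : q ^ 2 = y * y' := Real.sq_sqrt (by positivity)
  have q0 : 0 < q := Real.sqrt_pos.2 (by positivity)
  have hdist : dist (hp x h) (hp x' h') = 2 * Real.arsinh (D / (2 * q)) := UpperHalfPlane.dist_eq _ _
  have hlogq : Real.log q = (h + h') / 2 := by
    rw [hq, Real.log_sqrt (by positivity), Real.log_mul py.ne' py'.ne', hy, hy', Real.log_exp, Real.log_exp]
  -- the exponential of half of the distance
  set τ := D / (2 * q) with hτ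
  have τ0 : 0 ≤ τ := by positivity
  set E := Real.exp (Real.arsinh τ) with hE
  have hE1 : E = τ + √(1 + τ ^ 2) := Real.exp_arsinh τ
  have s1 : √(1 + τ ^ 2) ≤ 1 + τ := by
    rw [Real.sqrt_le_left (by positivity)]
    nlinarith
  have s2 : 1 ≤ √(1 + τ ^ 2) := by
    rw [Real.one_le_sqrt]
    nlinarith
  have s3 : τ ≤ √(1 + τ ^ 2) := by
    apply Real.le_sqrt_of_sq_le
    linarith
  have hτq : 2 * q * τ = D := by
    rw [hτ]
    field_simp
  have hDn : n ≤ D := by
    nlinarith [sq_nonneg (y - y')]
  have hDu : D ≤ 2 * m := by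
    nlinarith [sq_nonneg (y - y')]
  have hDy : y - y' ≤ D := by
    nlinarith [sq_nonneg n]
  have hqm : q ≤ m := by
    nlinarith
  -- upper
  have u1 : q * E ≤ 4 * m := by
    rw [hE1]
    nlinarith
  have u2 : m ≤ 4 * (q * E) := by
    have a1 : D ≤ q * E := by
      rw [hE1]
      nlinarith
    have a2 : q ≤ q * E := by
      rw [hE1]
      nlinarith
    rcases max_choice n y with hc | hc
    · rw [hc] at hm3
      nlinarith
    · rw [hc] at hm3
      by_cases h4 : y ≤ 4 * y'
      · have : y ≤ 2 * q := by nlinarith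
        nlinarith
      · nlinarith
  have pE : 0 < E := Real.exp_pos _
  have l1 := Real.log_le_log (by positivity) u1
  have l2 := Real.log_le_log pm u2
  rw [Real.log_mul q0.ne' pE.ne', Real.log_mul (by norm_num) pm.ne'] at l1
  rw [Real.log_mul (by norm_num) (by positivity), Real.log_mul q0.ne' pE.ne'] at l2
  have hl : Real.log E = Real.arsinh τ := by
    rw [hE, Real.log_exp]
  have l4 : Real.log 4 ≤ 3 := by
    have := Real.log_le_sub_one_of_pos (show (0 : ℝ) < 4 by norm_num)
    linarith
  rw [hdist]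
  unfold dT
  rw [abs_le]
  rw [hl, hlogq] at l1 l2
  constructor <;> linarith

theorem t_HYC : S_HYC := by
  refine ⟨10, fun x h x' h' => ?_⟩
  rcases le_total h' h with hh | hh
  · exact hyc_core hh
  · have := hyc_core (x := x') (x' := x) hh
    rwa [dist_comm, norm_sub_rev, dT_comm] at this

end Pool.Agent.Q222.AC
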