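import Pool.Agent.Q177.AC.Stm

set_option autoImplicit false

/-!
Project AC, job HYG: the upper half plane is geodesic.
-/

namespace Pool.Agent.Q222.AC

open Filter Topology
open Pool.Agent.Q177.AC

/-- the inversion -/
noncomputable def inv (z : UpperHalfPlane) : UpperHalfPlane := ⟨(-(z : ℂ))⁻¹, z.im_inv_neg_coe_pos⟩

theorem inv_coe (z : UpperHalfPlane) : ((inv z : UpperHalfPlane) : ℂ) = (-(z : ℂ))⁻¹ := rfl

theorem inv_inv' (z : UpperHalfPlane) : inv (inv z) = z := by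
  apply UpperHalfPlane.ext
  rw [inv_coe, inv_coe]
  simp

theorem inv_im (z : UpperHalfPlane) : (inv z).im = z.im / ‖(z : ℂ)‖ ^ 2 := by
  change ((-(z : ℂ))⁻¹).im = _
  rw [Complex.inv_im, Complex.normSq_neg, Complex.normSq_eq_norm_sq]
  simp

theorem inv_re (z : UpperHalfPlane) : (inv z).re = - z.re / ‖(z : ℂ)‖ ^ 2 := by
  change ((-(z : ℂ))⁻¹).re = _
  rw [Complex.inv_re, Complex.normSq_neg, Complex.normSq_eq_norm_sq]
  simp

theorem inv_dist (z w : UpperHalfPlane) : dist (inv z) (inv w) = dist z w := by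
  rw [UpperHalfPlane.dist_eq, UpperHalfPlane.dist_eq, inv_coe, inv_coe, inv_im, inv_im]
  have hz : (z : ℂ) ≠ 0 := z.ne_zero
  have hw : (w : ℂ) ≠ 0 := w.ne_zero
  have hz' : 0 < ‖(z : ℂ)‖ := norm_pos_iff.2 hz
  have hw' : 0 < ‖(w : ℂ)‖ := norm_pos_iff.2 hw
  have h1 : dist (-(z : ℂ))⁻¹ (-(w : ℂ))⁻¹ = dist (z : ℂ) w / (‖(z : ℂ)‖ * ‖(w : ℂ)‖) := by
    rw [dist_inv_inv₀ (neg_ne_zero.2 hz) (neg_ne_zero.2 hw), norm_neg, norm_neg, dist_neg_neg]
  have h2 : √(z.im / ‖(z : ℂ)‖ ^ 2 * (w.im / ‖(w : ℂ)‖ ^ 2)) = √(z.im * w.im) / (‖(z : ℂ)‖ * ‖(w : ℂ)‖) := by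
    rw [div_mul_div_comm, ← mul_pow, Real.sqrt_div (mul_pos z.im_pos w.im_pos).le, Real.sqrt_sq (by positivity)]
  have h3 : 0 < √(z.im * w.im) := Real.sqrt_pos.2 (mul_pos z.im_pos w.im_pos)
  rw [h1, h2]
  congr 2
  field_simp

/-- joined by a geodesic -/
def GJ (z w : UpperHalfPlane) : Prop := ∃ γ : ℝ → UpperHalfPlane, γ 0 = z ∧ γ (dist z w) = w ∧
    ∀ s ∈ Set.Icc 0 (dist z w), ∀ t ∈ Set.Icc 0 (dist z w), dist (γ s) (γ t) = |s - t|

theorem GJ_map {z w : UpperHalfPlane} (g g' : UpperHalfPlane → UpperHalfPlane) (hg : Isometry g) (hg' : Isometry g')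
    (h1 : ∀ x, g' (g x) = x) (h : GJ (g z) (g w)) : GJ z w := by
  obtain ⟨γ, h0, h2, h3⟩ := h
  rw [hg.dist_eq] at h2 h3
  refine ⟨fun s => g' (γ s), ?_, ?_, ?_⟩
  · change g' (γ 0) = z
    rw [h0, h1]
  · change g' (γ _) = w
    rw [h2, h1]
  · intro s hs t ht
    change dist (g' (γ s)) (g' (γ t)) = _
    rw [hg'.dist_eq, h3 s hs t ht]

theorem GJ_vert {z w : UpperHalfPlane} (h : z.re = w.re) : GJ z w := by
  set L : ℝ → UpperHalfPlane := fun y => ⟨⟨z.re, Real.exp y⟩, Real.exp_pos y⟩ with hL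
  have hi : Isometry L := UpperHalfPlane.isometry_vertical_line z.re
  have e1 : L (Real.log z.im) = z := by
    apply UpperHalfPlane.ext
    apply Complex.ext
    · rfl
    · change Real.exp (Real.log z.im) = z.im
      exact Real.exp_log z.im_pos
  have e2 : L (Real.log w.im) = w := by
    apply UpperHalfPlane.ext
    apply Complex.ext
    · exact h
    · change Real.exp (Real.log w.im) = w.im
      exact Real.exp_log w.im_pos
  have e3 : dist z w = |Real.log z.im - Real.log w.im| := by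
    conv_lhs => rw [← e1, ← e2]
    rw [hi.dist_eq, Real.dist_eq]
  rcases le_total (Real.log z.im) (Real.log w.im) with hl | hl
  · rw [abs_of_nonpos (by linarith)] at e3
    refine ⟨fun s => L (Real.log z.im + s), ?_, ?_, ?_⟩
    · simpa using e1
    · change L (Real.log z.im + dist z w) = w
      rw [e3, show Real.log z.im + -(Real.log z.im - Real.log w.im) = Real.log w.im by ring, e2]
    · intro s _ t _
      rw [hi.dist_eq, Real.dist_eq]
      congr 1
      ring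
  · rw [abs_of_nonneg (by linarith)] at e3
    refine ⟨fun s => L (Real.log z.im - s), ?_, ?_, ?_⟩
    · simpa using e1
    · change L (Real.log z.im - dist z w) = w
      rw [e3, show Real.log z.im - (Real.log z.im - Real.log w.im) = Real.log w.im by ring, e2]
    · intro s _ t _
      rw [hi.dist_eq, Real.dist_eq, abs_sub_comm s t]
      congr 1
      ring

theorem norm_sq_coe (z : UpperHalfPlane) : ‖(z : ℂ)‖ ^ 2 = z.re ^ 2 + z.im ^ 2 := by
  rw [← Complex.normSq_eq_norm_sq, Complex.normSq_apply]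
  change z.re * z.re + z.im * z.im = _
  ring

/-- two points on a circle through zero -/
theorem GJ_circ {z w : UpperHalfPlane} {a : ℝ} (ha : a ≠ 0) (hz : ‖(z : ℂ)‖ ^ 2 = a * z.re) (hw : ‖(w : ℂ)‖ ^ 2 = a * w.re) : GJ z w := by
  have hi : Isometry inv := Isometry.of_dist_eq inv_dist
  apply GJ_map inv inv hi hi inv_inv'
  apply GJ_vert
  have hz' : 0 < ‖(z : ℂ)‖ := norm_pos_iff.2 z.ne_zero
  have hw' : 0 < ‖(w : ℂ)‖ := norm_pos_iff.2 w.ne_zero
  have h1 : z.re ≠ 0 := by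
    intro h
    rw [h, mul_zero] at hz
    exact absurd hz (by positivity)
  have h2 : w.re ≠ 0 := by
    intro h
    rw [h, mul_zero] at hw
    exact absurd hw (by positivity)
  rw [inv_re, inv_re, hz, hw]
  field_simp

theorem t_HYG : S_HYG := by
  intro z w
  change GJ z w
  by_cases h : z.re = w.re
  · exact GJ_vert h
  · have hd : w.re - z.re ≠ 0 := fun h' => h (by linarith)
    set c : ℝ := (‖(w : ℂ)‖ ^ 2 - ‖(z : ℂ)‖ ^ 2) / (2 * (w.re - z.re)) with hc
    have hc' : c * (2 * (w.re - z.re)) = ‖(w : ℂ)‖ ^ 2 - ‖(z : ℂ)‖ ^ 2 := by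
      rw [hc]
      field_simp
    have hp : 0 < (z.re - c) ^ 2 + z.im ^ 2 := by
      have := z.im_pos
      positivity
    set R : ℝ := √((z.re - c) ^ 2 + z.im ^ 2) with hR
    have hR' : R ^ 2 = (z.re - c) ^ 2 + z.im ^ 2 := Real.sq_sqrt hp.le
    have hR0 : 0 < R := Real.sqrt_pos.2 hp
    have hg := UpperHalfPlane.isometry_real_vadd (-(c - R))
    have hg' := UpperHalfPlane.isometry_real_vadd (c - R)
    refine GJ_map (fun x => -(c - R) +ᵥ x) (fun x => (c - R) +ᵥ x) hg hg' (fun x => ?_) ?_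
    · rw [vadd_vadd, add_neg_cancel, zero_vadd]
    · rw [norm_sq_coe, norm_sq_coe] at hc'
      apply GJ_circ (a := 2 * R) (by positivity)
      · rw [norm_sq_coe, UpperHalfPlane.vadd_re, UpperHalfPlane.vadd_im]
        nlinarith
      · rw [norm_sq_coe, UpperHalfPlane.vadd_re, UpperHalfPlane.vadd_im]
        nlinarith

end Pool.Agent.Q222.AC
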