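import Pool.Agent.Q177.AC.Stm

set_option autoImplicit false

/-!
Project AC, job LIN: in a tree only linear functions are realizable.
-/

namespace Pool.Agent.Q222.AC

open Filter Topology
open Pool.Agent.Q177.AC

/-- a point on a geodesic is close to the sequence -/
theorem lin_near {X : Type} [MetricSpace X] (h4 : FourPoint X) (P : ℕ → X) {J : ℝ} (hJ : 0 < J)
    (hstep : ∀ k, dist (P k) (P (k + 1)) ≤ J) {N : ℕ} {v : X} (hv : dist (P 0) v + dist v (P N) = dist (P 0) (P N)) :
    ∃ k, k ≤ N ∧ dist (P k) v ≤ J := by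
  by_contra hcon
  push Not at hcon
  have key : ∀ k, k ≤ N → J < dist (P 0) v + dist (P k) v - dist (P 0) (P k) := by
    intro k
    induction k with
    | zero =>
      intro _
      have := hcon 0 (Nat.zero_le _)
      rw [dist_self]
      linarith
    | succ k ih =>
      intro hk
      have h1 := ih (by omega)
      have h2 := hcon k (by omega)
      have h3 := hcon (k + 1) hk
      have h5 := hstep k
      rcases le_max_iff.1 (h4 (P 0) (P k) (P (k + 1)) v) with h6 | h6
      · linarith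
      · linarith
  have h1 := key N le_rfl
  rw [dist_comm v] at hv
  linarith

/-- the counting argument -/
theorem lin_count {X : Type} [MetricSpace X] (hG : Geodesic X) (h4 : FourPoint X) (P : ℕ → X) {J : ℝ} (hJ : 0 < J)
    (hstep : ∀ k, dist (P k) (P (k + 1)) ≤ J) {K : ℕ} (hK : ∀ k l, k ≤ l → dist (P k) (P l) ≤ 5 * J → l - k < K) (N : ℕ) :
    (N : ℝ) ≤ K * (dist (P 0) (P N) / (3 * J) + 2) := by
  obtain ⟨γ, g0, g1, g2⟩ := hG (P 0) (P N)
  set D := dist (P 0) (P N) with hD
  have D0 : 0 ≤ D := dist_nonneg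
  have hnear : ∀ s ∈ Set.Icc 0 D, ∃ k, k ≤ N ∧ dist (P k) (γ s) ≤ J := by
    intro s hs
    apply lin_near h4 P hJ hstep
    have e1 := g2 0 ⟨le_rfl, D0⟩ s hs
    have e2 := g2 s hs D ⟨D0, le_rfl⟩
    rw [g0, zero_sub, abs_neg, abs_of_nonneg hs.1] at e1
    rw [g1, abs_of_nonpos (by linarith [hs.2])] at e2
    rw [e1, e2]
    ring
  have hmem : ∀ j : ℕ, min (3 * J * j) D ∈ Set.Icc 0 D := fun j => ⟨le_min (by positivity) D0, min_le_right _ _⟩
  have hind : ∀ j : ℕ, ∀ k, k ≤ N → dist (P k) (γ (min (3 * J * j) D)) ≤ J → k ≤ K * (j + 1) := by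
    intro j
    induction j with
    | zero =>
      intro k _ hk
      rw [Nat.cast_zero, mul_zero, min_eq_left D0, g0, dist_comm] at hk
      have := hK 0 k (Nat.zero_le _) (by linarith)
      omega
    | succ j ih =>
      intro k _ hk
      obtain ⟨k', hk', hk2⟩ := hnear _ (hmem j)
      have h1 := ih k' hk' hk2
      rcases le_total k' k with h | h
      · have h2 := g2 _ (hmem j) _ (hmem (j + 1))
        have h3 : |min (3 * J * j) D - min (3 * J * ((j + 1 : ℕ) : ℝ)) D| ≤ 3 * J := by
          have := abs_min_sub_min_le_max (3 * J * j) D (3 * J * ((j + 1 : ℕ) : ℝ)) D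
          refine this.trans (max_le ?_ ?_)
          · push_cast
            rw [show 3 * J * (j : ℝ) - 3 * J * (j + 1) = -(3 * J) by ring, abs_neg, abs_of_pos (by positivity)]
          · rw [sub_self, abs_zero]
            positivity
        have h4' : dist (P k') (P k) ≤ 5 * J := by
          have t1 := dist_triangle (P k') (γ (min (3 * J * j) D)) (P k)
          have t2 := dist_triangle (γ (min (3 * J * j) D)) (γ (min (3 * J * ((j + 1 : ℕ) : ℝ)) D)) (P k)
          have t3 := dist_comm (γ (min (3 * J * ((j + 1 : ℕ) : ℝ)) D)) (P k)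
          linarith
        have h5 := hK k' k h h4'
        have h6 : K * (j + 1 + 1) = K * (j + 1) + K := by ring
        omega
      · have h6 : K * (j + 1 + 1) = K * (j + 1) + K := by ring
        omega
  set m := ⌈D / (3 * J)⌉₊ with hm
  have hm1 : D / (3 * J) ≤ m := Nat.le_ceil _
  have hm2 : (m : ℝ) < D / (3 * J) + 1 := Nat.ceil_lt_add_one (by positivity)
  have hm3 : min (3 * J * m) D = D := by
    apply min_eq_right
    rw [div_le_iff₀ (by positivity)] at hm1
    linarith
  have h1 := hind m N le_rfl (by rw [hm3, g1, dist_self]; exact hJ.le)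
  have h2 : (N : ℝ) ≤ K * (m + 1) := by exact_mod_cast h1
  have h3 : (K : ℝ) * (m + 1) ≤ K * (D / (3 * J) + 2) := by
    apply mul_le_mul_of_nonneg_left _ (Nat.cast_nonneg _)
    linarith
  exact h2.trans h3

theorem t_LIN : S_LIN := by
  intro X _ hG h4 f hf hr
  obtain ⟨p, A, B, hA, hB, N₀, hN₀, hd⟩ := hr
  obtain ⟨f1, f2, f3, _⟩ := hf
  set P : ℕ → X := fun k => p ⟨(k : ℤ) + 1, by change (1 : ℤ) ≤ k + 1; omega⟩ with hP
  have hd' : ∀ k l : ℕ, k ≤ l → N₀ ≤ l - k → A * f (l - k) ≤ dist (P k) (P l) ∧ dist (P k) (P l) ≤ B * f (l - k) := by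
    intro k l hkl hN
    have e : (((l : ℤ) + 1) - ((k : ℤ) + 1)).natAbs = l - k := by omega
    have := hd ⟨(k : ℤ) + 1, by change (1 : ℤ) ≤ k + 1; omega⟩ ⟨(l : ℤ) + 1, by change (1 : ℤ) ≤ l + 1; omega⟩ (by rw [e]; exact hN)
    change A * f (((l : ℤ) + 1) - ((k : ℤ) + 1)).natAbs ≤ dist (P l) (P k) ∧ dist (P l) (P k) ≤ B * f (((l : ℤ) + 1) - ((k : ℤ) + 1)).natAbs at this
    rw [e, dist_comm] at this
    exact this
  set J := B * f (N₀ + 1) + B * f N₀ with hJ
  have hJ0 : 0 < J := by
    have := f1 (N₀ + 1) (by omega)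
    have := f1 N₀ hN₀
    positivity
  have hstep : ∀ k, dist (P k) (P (k + 1)) ≤ J := by
    intro k
    have h1 := (hd' k (k + 1 + N₀) (by omega) (by omega)).2
    have h2 := (hd' (k + 1) (k + 1 + N₀) (by omega) (by omega)).2
    rw [show k + 1 + N₀ - k = N₀ + 1 by omega] at h1
    rw [show k + 1 + N₀ - (k + 1) = N₀ by omega] at h2
    have h3 := dist_triangle_right (P k) (P (k + 1)) (P (k + 1 + N₀))
    linarith
  obtain ⟨n, hn, hn2⟩ := f3 (5 * J / A + 1)
  set K := max n N₀ with hK
  have hK' : ∀ k l, k ≤ l → dist (P k) (P l) ≤ 5 * J → l - k < K := by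
    intro k l hkl h
    by_contra hc
    push Not at hc
    have h1 : N₀ ≤ l - k := (le_max_right _ _).trans hc
    have h2 : n ≤ l - k := (le_max_left _ _).trans hc
    have h3 := (hd' k l hkl h1).1
    have h5 := f2 n (l - k) hn h2
    have h6 : A * (5 * J / A + 1) ≤ A * f (l - k) := mul_le_mul_of_nonneg_left (hn2.trans h5) hA.le
    have h7 : A * (5 * J / A + 1) = 5 * J + A := by
      field_simp
    linarith
  have hK0 : (0 : ℝ) < K := by
    have : 0 < K := lt_of_lt_of_le hn (le_max_left _ _)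
    exact_mod_cast this
  refine ⟨3 * J / (2 * K * B), by positivity, ?_⟩
  filter_upwards [eventually_ge_atTop (max N₀ (4 * K))] with N hN
  have h1 := lin_count hG h4 P hJ0 hstep hK' N
  have h2 := (hd' 0 N (Nat.zero_le _) (by have := (le_max_left _ _).trans hN; omega)).2
  rw [Nat.sub_zero] at h2
  have h3 : ((4 * K : ℕ) : ℝ) ≤ N := by exact_mod_cast (le_max_right _ _).trans hN
  push_cast at h3
  have h4' : (N : ℝ) ≤ 2 * K * (dist (P 0) (P N) / (3 * J)) := by
    have e : (K : ℝ) * (dist (P 0) (P N) / (3 * J) + 2) = K * (dist (P 0) (P N) / (3 * J)) + 2 * K := by ring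
    rw [e] at h1
    linarith
  have h5 : (N : ℝ) ≤ 2 * K * (B * f N / (3 * J)) := by
    refine h4'.trans ?_
    apply mul_le_mul_of_nonneg_left _ (by positivity)
    exact div_le_div_of_nonneg_right h2 (by positivity)
  rw [div_mul_eq_mul_div, div_le_iff₀ (by positivity)]
  have h6 : 2 * K * (B * f N / (3 * J)) * (3 * J) = f N * (2 * K * B) := by
    field_simp
  have h7 := mul_le_mul_of_nonneg_right h5 (show 0 ≤ 3 * J by positivity)
  linarith

end Pool.Agent.Q222.AC
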