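import Pool.Agent.Q177.AC.Stm

set_option autoImplicit false

/-!
Project AC, jobs LOG and GOOD.
-/

namespace Pool.Agent.Q222.AC

open Filter Topology
open Pool.Agent.Q177.AC

/-- points of the horocycle -/
noncomputable def hor (t : ℝ) : UpperHalfPlane := ⟨⟨t, 1⟩, one_pos⟩

theorem dist_hor (s t : ℝ) : dist (hor s) (hor t) = 2 * Real.arsinh (|s - t| / 2) := by
  rw [UpperHalfPlane.dist_eq]
  have h1 : dist ((hor s : UpperHalfPlane) : ℂ) (hor t) = |s - t| := by
    rw [Complex.dist_eq]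
    have h2 : ((hor s : UpperHalfPlane) : ℂ) - (hor t : ℂ) = ((s - t : ℝ) : ℂ) := by
      apply Complex.ext
      · simp [hor]
      · simp [hor]
    rw [h2, Complex.norm_real, Real.norm_eq_abs]
  have h3 : (hor s).im * (hor t).im = 1 := by
    change (1 : ℝ) * 1 = 1
    norm_num
  rw [h1, h3, Real.sqrt_one, mul_one]

theorem f0_eq (N : ℕ) : f0 N = dist (hor 0) (hor N) := by
  rw [dist_hor, zero_sub, abs_neg, Nat.abs_cast]
  rfl

theorem f0_mono {m n : ℕ} (h : m ≤ n) : f0 m ≤ f0 n := by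
  unfold f0
  have h1 : (m : ℝ) / 2 ≤ n / 2 := by
    have : (m : ℝ) ≤ n := by exact_mod_cast h
    linarith
  have := Real.arsinh_le_arsinh.2 h1
  linarith

theorem f0_add (a b : ℕ) : f0 (a + b) ≤ f0 a + f0 b := by
  rw [f0_eq, f0_eq, f0_eq]
  have h1 : dist (hor 0) (hor b) = dist (hor a) (hor ((a + b : ℕ) : ℝ)) := by
    rw [dist_hor, dist_hor]
    push_cast
    congr 3
    rw [zero_sub, abs_neg, abs_sub_comm]
    congr 1
    ring
  rw [h1]
  exact dist_triangle _ _ _

theorem f0_mul (M N : ℕ) : f0 (M * N) ≤ M * f0 N := by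
  induction M with
  | zero => simp [f0]
  | succ M ih =>
    have h1 := f0_add (M * N) N
    rw [show (M + 1) * N = M * N + N by ring]
    push_cast
    linarith

theorem f0_le (N : ℕ) : f0 N ≤ 2 * Real.log (N + 1) := by
  unfold f0
  have h0 : (0 : ℝ) ≤ (N : ℝ) / 2 := by positivity
  have h1 : Real.arsinh ((N : ℝ) / 2) ≤ Real.log (N + 1) := by
    rw [Real.le_log_iff_exp_le (by positivity), Real.exp_arsinh]
    have h2 : √(1 + ((N : ℝ) / 2) ^ 2) ≤ 1 + (N : ℝ) / 2 := by
      rw [Real.sqrt_le_left (by positivity)]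
      nlinarith
    linarith
  linarith

theorem t_LOG : S_LOG := by
  refine ⟨⟨?_, ?_, ?_, ?_⟩, ?_, ?_⟩
  · intro n hn
    unfold f0
    have h1 : (0 : ℝ) < (n : ℝ) / 2 := by
      have : (0 : ℝ) < n := by exact_mod_cast hn
      linarith
    have := Real.arsinh_pos_iff.2 h1
    linarith
  · intro m n _ hmn
    exact f0_mono hmn
  · intro K
    obtain ⟨n, hn⟩ := exists_nat_ge (2 * Real.sinh (K / 2))
    refine ⟨max n 1, le_max_right _ _, ?_⟩
    refine le_trans ?_ (f0_mono (le_max_left n 1))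
    unfold f0
    have h1 : Real.arsinh (Real.sinh (K / 2)) ≤ Real.arsinh ((n : ℝ) / 2) :=
      Real.arsinh_le_arsinh.2 (by linarith)
    rw [Real.arsinh_sinh] at h1
    linarith
  · intro M hM
    refine ⟨1, M, one_pos, by exact_mod_cast hM, Eventually.of_forall fun N => ⟨?_, f0_mul M N⟩⟩
    rw [one_mul]
    exact f0_mono (Nat.le_mul_of_pos_left N hM)
  · intro I
    refine ⟨fun n => hor ((n : ℤ) : ℝ), 1, 1, one_pos, one_pos, 1, le_rfl, fun m n _ => ?_⟩
    have h1 : dist (hor (((n : ℤ)) : ℝ)) (hor ((m : ℤ) : ℝ)) = f0 (((n : ℤ) - m).natAbs) := by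
      rw [dist_hor]
      unfold f0
      rw [Nat.cast_natAbs]
      push_cast
      rfl
    rw [h1, one_mul]
    exact ⟨le_rfl, le_rfl⟩
  · intro c hc
    have h1 := (Real.isLittleO_log_id_atTop).def (show (0 : ℝ) < c / 8 by linarith)
    have h2 : Tendsto (fun N : ℕ => (N : ℝ) + 1) atTop atTop :=
      tendsto_atTop_add_const_right _ _ tendsto_natCast_atTop_atTop
    filter_upwards [h2.eventually h1, eventually_ge_atTop 1] with N hN hN1
    have h3 : (1 : ℝ) ≤ N := by exact_mod_cast hN1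
    have h4 : Real.log ((N : ℝ) + 1) ≤ c / 8 * ((N : ℝ) + 1) := by
      have h5 := (le_abs_self _).trans (Real.norm_eq_abs (Real.log ((N : ℝ) + 1)) ▸ hN)
      have h6 : ‖(id ((N : ℝ) + 1) : ℝ)‖ = (N : ℝ) + 1 := by
        rw [id, Real.norm_eq_abs, abs_of_nonneg (by positivity)]
      rwa [h6] at h5
    have h7 := f0_le N
    have h8 : c / 8 * ((N : ℝ) + 1) ≤ c / 4 * N := by nlinarith
    nlinarith

theorem t_GOOD : S_GOOD := by
  constructor
  · refine ⟨?_, ?_, ?_⟩
    · intro j hj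
      have h1 : (1 : ℝ) ≤ |(j : ℝ)| := by
        rw [← Int.cast_abs]
        exact_mod_cast Int.one_le_abs hj
      rw [Real.norm_eq_abs]
      nlinarith
    · intro s hs
      refine ⟨s, ?_, ?_⟩
      · rw [Real.norm_eq_abs, abs_of_pos hs]
      · rw [Real.norm_eq_abs, abs_of_pos hs]; linarith
    · rw [Cardinal.mk_real]
  · refine ⟨?_, ?_, ?_⟩
    · intro j hj
      have hj' : (j : ℚ_[2]) ≠ 0 := by exact_mod_cast hj
      have h1 : ‖(j : ℚ_[2])‖ = (2 : ℝ) ^ (-(padicValInt 2 j : ℤ)) := by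
        rw [Padic.norm_eq_zpow_neg_valuation hj', Padic.valuation_intCast]
        norm_num
      have h2 : ((2 : ℕ) ^ (padicValInt 2 j) : ℤ) ∣ j := by
        have h3 := (Padic.norm_int_le_pow_iff_dvd (p := 2) j (padicValInt 2 j)).1 (by
          rw [h1]; norm_num)
        exact_mod_cast h3
      have h3 : (2 : ℝ) ^ (padicValInt 2 j) ≤ |(j : ℝ)| := by
        have h4 := Int.le_of_dvd (abs_pos.2 hj) ((dvd_abs _ _).2 h2)
        rw [← Int.cast_abs]
        exact_mod_cast h4
      rw [h1, zpow_neg, zpow_natCast]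
      have h5 : (0 : ℝ) < (2 : ℝ) ^ (padicValInt 2 j) := by positivity
      rw [← mul_inv_cancel₀ (ne_of_gt h5), mul_comm]
      exact mul_le_mul_of_nonneg_left h3 (inv_nonneg.2 h5.le)
    · intro s hs
      obtain ⟨n, hn1, hn2⟩ := exists_mem_Ioc_zpow hs (one_lt_two : (1 : ℝ) < 2)
      refine ⟨(2 : ℚ_[2]) ^ (-(n + 1)), ?_⟩
      have h1 : ‖(2 : ℚ_[2]) ^ (-(n + 1))‖ = (2 : ℝ) ^ (n + 1) := by
        have h2 := Padic.norm_p_zpow (p := 2) (-(n + 1))
        rw [neg_neg] at h2
        exact_mod_cast h2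
      rw [h1]
      refine ⟨hn2, ?_⟩
      rw [zpow_add_one₀ (by norm_num)]
      linarith
    · have hsurj : Function.Surjective (Quotient.mk'' :
          CauSeq ℚ (padicNorm 2) → ℚ_[2]) := Quotient.mk''_surjective
      refine (Cardinal.mk_le_of_surjective hsurj).trans ?_
      refine (Cardinal.mk_subtype_le _).trans ?_
      rw [Cardinal.mk_arrow]
      simp

end Pool.Agent.Q222.AC
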