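import Pool.Agent.Q177.AC.Stm

set_option autoImplicit false

/-!
Project AC, jobs TRG and TRP: the tree of balls is geodesic and proper.
-/

namespace Pool.Agent.Q222.AC

open Filter Topology
open Pool.Agent.Q177.AC

theorem dT_eq_of {n u v m : ℝ} (hn : n ≤ Real.exp m) (hu : u ≤ m) (hv : v ≤ m)
    (h : n = Real.exp m ∨ u = m ∨ v = m) : dT n u v = 2 * m - u - v := by
  have h1 : max n (max (Real.exp u) (Real.exp v)) = Real.exp m := by
    apply le_antisymm
    · exact max_le hn (max_le (Real.exp_le_exp.2 hu) (Real.exp_le_exp.2 hv))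
    · rcases h with h | h | h
      · rw [← h]; exact le_max_left _ _
      · rw [← h]; exact (le_max_left _ _).trans (le_max_right _ _)
      · rw [← h]; exact (le_max_right _ _).trans (le_max_right _ _)
  unfold dT
  rw [h1, Real.log_exp]

theorem dT_of_le {n u v : ℝ} (hn : n ≤ Real.exp v) : dT n u v = |u - v| := by
  rcases le_total u v with h | h
  · rw [dT_eq_of hn h le_rfl (Or.inr (Or.inr rfl)), abs_sub_comm, abs_of_nonneg (by linarith)]
    ring
  · rw [dT_eq_of (hn.trans (Real.exp_le_exp.2 h)) le_rfl h (Or.inr (Or.inl rfl)),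
      abs_of_nonneg (by linarith)]
    ring

theorem t_TRG : S_TRG := by
  intro K _ _ a b
  obtain ⟨⟨x, h⟩, rfl⟩ := SeparationQuotient.surjective_mk a
  obtain ⟨⟨x', h'⟩, rfl⟩ := SeparationQuotient.surjective_mk b
  change ∃ γ : ℝ → Pool.Agent.Q177.AC.Tree K, γ 0 = Tree.pt x h ∧
    γ (dist (Tree.pt x h) (Tree.pt x' h')) = Tree.pt x' h' ∧
    ∀ s ∈ Set.Icc 0 (dist (Tree.pt x h) (Tree.pt x' h')),
      ∀ t ∈ Set.Icc 0 (dist (Tree.pt x h) (Tree.pt x' h')), dist (γ s) (γ t) = |s - t|
  obtain ⟨m, hm⟩ : ∃ m, m = Real.log (max ‖x - x'‖ (max (Real.exp h) (Real.exp h'))) := ⟨_, rfl⟩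
  have hpos : 0 < max ‖x - x'‖ (max (Real.exp h) (Real.exp h')) :=
    lt_max_of_lt_right (lt_max_of_lt_left (Real.exp_pos h))
  have hexp : Real.exp m = max ‖x - x'‖ (max (Real.exp h) (Real.exp h')) := by
    rw [hm, Real.exp_log hpos]
  have hn : ‖x - x'‖ ≤ Real.exp m := by rw [hexp]; exact le_max_left _ _
  have hh : h ≤ m := by
    rw [← Real.exp_le_exp, hexp]
    exact (le_max_left _ _).trans (le_max_right _ _)
  have hh' : h' ≤ m := by
    rw [← Real.exp_le_exp, hexp]
    exact (le_max_right _ _).trans (le_max_right _ _)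
  have hcase : ‖x - x'‖ = Real.exp m ∨ h = m ∨ h' = m := by
    rcases max_choice ‖x - x'‖ (max (Real.exp h) (Real.exp h')) with h1 | h1
    · left; rw [hexp, h1]
    · rcases max_choice (Real.exp h) (Real.exp h') with h2 | h2
      · right; left
        rw [h1, h2] at hexp
        exact (Real.exp_injective hexp).symm
      · right; right
        rw [h1, h2] at hexp
        exact (Real.exp_injective hexp).symm
  have hD : dist (Tree.pt x h) (Tree.pt x' h') = 2 * m - h - h' := by
    rw [Tree.dist_pt, dT_eq_of hn hh hh' hcase]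
  rw [hD]
  have hpm : Tree.pt x m = Tree.pt x' m := by
    apply eq_of_dist_eq_zero
    rw [Tree.dist_pt, dT_eq_of hn le_rfl le_rfl (Or.inr (Or.inl rfl))]
    ring
  have h0 : ∀ y : K, ‖y - y‖ ≤ Real.exp h := by
    intro y; rw [sub_self, norm_zero]; exact (Real.exp_pos _).le
  have hsame : ∀ (y : K) (u v : ℝ), u ≤ v → dist (Tree.pt y u) (Tree.pt y v) = v - u := by
    intro y u v huv
    rw [Tree.dist_pt, sub_self, norm_zero, dT_eq_of (Real.exp_pos v).le huv le_rfl
      (Or.inr (Or.inr rfl))]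
    ring
  classical
  let γ : ℝ → Pool.Agent.Q177.AC.Tree K := fun s => if s ≤ m - h then Tree.pt x (h + s) else Tree.pt x' (2 * m - h - s)
  have hγ1 : ∀ s, s ≤ m - h → γ s = Tree.pt x (h + s) := fun s hs => if_pos hs
  have hγ2 : ∀ s, ¬ s ≤ m - h → γ s = Tree.pt x' (2 * m - h - s) := fun s hs => if_neg hs
  have key : ∀ s t, 0 ≤ s → s ≤ t → t ≤ 2 * m - h - h' → dist (γ s) (γ t) = t - s := by
    intro s t hs hst ht
    by_cases h1 : t ≤ m - h
    · rw [hγ1 s (hst.trans h1), hγ1 t h1, hsame _ _ _ (by linarith)]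
      ring
    · by_cases h2 : s ≤ m - h
      · rw [hγ1 s h2, hγ2 t h1, Tree.dist_pt]
        rw [dT_eq_of hn (by linarith) (by linarith)]
        · ring
        · rcases hcase with h3 | h3 | h3
          · exact Or.inl h3
          · right; left; linarith
          · exfalso; linarith
      · rw [hγ2 s h2, hγ2 t h1, dist_comm, hsame _ _ _ (by linarith)]
        ring
  refine ⟨γ, ?_, ?_, ?_⟩
  · rw [hγ1 0 (by linarith), add_zero]
  · by_cases h1 : 2 * m - h - h' ≤ m - h
    · rw [hγ1 _ h1]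
      have h2 : h' = m := by linarith
      rw [h2, show h + (2 * m - h - m) = m by ring, hpm]
    · rw [hγ2 _ h1, show 2 * m - h - (2 * m - h - h') = h' by ring]
  · rintro s ⟨hs0, hs1⟩ t ⟨ht0, ht1⟩
    rcases le_total s t with h1 | h1
    · rw [key s t hs0 h1 ht1, abs_sub_comm, abs_of_nonneg (by linarith)]
    · rw [dist_comm, key t s ht0 h1 hs1, abs_of_nonneg (by linarith)]

theorem t_TRP : S_TRP := by
  intro K _ _ _
  refine ⟨fun a R => ?_⟩
  obtain ⟨⟨x, h⟩, rfl⟩ := SeparationQuotient.surjective_mk a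
  change IsCompact (Metric.closedBall (Tree.pt x h) R)
  have hcont : Continuous fun p : K × ℝ => Tree.pt p.1 p.2 := by
    rw [continuous_iff_continuousAt]
    rintro ⟨y, v⟩
    rw [ContinuousAt, tendsto_iff_dist_tendsto_zero]
    have h1 : ∀ᶠ p : K × ℝ in 𝓝 (y, v), |p.2 - v| = dist (Tree.pt p.1 p.2) (Tree.pt y v) := by
      have h2 : ∀ᶠ p : K × ℝ in 𝓝 (y, v), dist p.1 y < Real.exp v := by
        have h3 : Tendsto (fun p : K × ℝ => dist p.1 y) (𝓝 (y, v)) (𝓝 (dist y y)) := by
          exact ((continuous_fst.dist continuous_const).tendsto (y, v))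
        rw [dist_self] at h3
        exact h3.eventually (gt_mem_nhds (Real.exp_pos v))
      filter_upwards [h2] with p hp
      rw [Tree.dist_pt, dT_of_le]
      rw [← dist_eq_norm]
      exact hp.le
    refine Tendsto.congr' h1 ?_
    have h4 : Tendsto (fun p : K × ℝ => |p.2 - v|) (𝓝 (y, v)) (𝓝 |v - v|) :=
      ((continuous_snd.sub continuous_const).abs.tendsto (y, v))
    rwa [sub_self, abs_zero] at h4
  have hK : IsCompact ((fun p : K × ℝ => Tree.pt p.1 p.2) ''
      (Metric.closedBall x (Real.exp (R + h)) ×ˢ Set.Icc (h - R) (h + R))) :=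
    ((isCompact_closedBall _ _).prod isCompact_Icc).image hcont
  refine hK.of_isClosed_subset Metric.isClosed_closedBall ?_
  intro b hb
  obtain ⟨⟨y, v⟩, rfl⟩ := SeparationQuotient.surjective_mk b
  have hb' : dT ‖y - x‖ v h ≤ R := hb
  unfold dT at hb'
  have hpos : 0 < max ‖y - x‖ (max (Real.exp v) (Real.exp h)) :=
    lt_max_of_lt_right (lt_max_of_lt_left (Real.exp_pos v))
  obtain ⟨m, hm⟩ : ∃ m, m = Real.log (max ‖y - x‖ (max (Real.exp v) (Real.exp h))) := ⟨_, rfl⟩
  have hexp : Real.exp m = max ‖y - x‖ (max (Real.exp v) (Real.exp h)) := by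
    rw [hm, Real.exp_log hpos]
  have hn : ‖y - x‖ ≤ Real.exp m := by rw [hexp]; exact le_max_left _ _
  have hv : v ≤ m := by
    rw [← Real.exp_le_exp, hexp]
    exact (le_max_left _ _).trans (le_max_right _ _)
  have hh : h ≤ m := by
    rw [← Real.exp_le_exp, hexp]
    exact (le_max_right _ _).trans (le_max_right _ _)
  rw [← hm] at hb'
  refine ⟨(y, v), ⟨?_, ?_⟩, rfl⟩
  · rw [Metric.mem_closedBall, dist_eq_norm]
    exact hn.trans (Real.exp_le_exp.2 (by linarith))
  · exact ⟨by linarith, by linarith⟩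

end Pool.Agent.Q222.AC
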